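import Pool.Agent.W394.BQN.Stm2

set_option autoImplicit false

open Polynomial

noncomputable section

namespace Pool.Agent.W179.BQN

theorem dim_pid (V : Type) [CommRing V] [IsDomain V] [IsPrincipalIdealRing V] :
    ringKrullDim V ≤ 1 := by
  by_cases hf : IsField V
  · rw [ringKrullDim_eq_zero_of_isField hf]
    exact zero_le_one
  · rw [IsPrincipalIdealRing.ringKrullDim_eq_one V hf]

theorem wb_aux (a : WithBot ℕ∞) (h : a + 1 ≤ 1 + 1) : a ≤ 1 := by
  induction a using WithBot.recBotCoe with
  | bot => exact bot_le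
  | coe n =>
    have h0 : ((n + 1 : ℕ∞) : WithBot ℕ∞) ≤ ((1 + 1 : ℕ∞) : WithBot ℕ∞) := by
      rw [WithBot.coe_add, WithBot.coe_add, WithBot.coe_one]
      exact h
    have h' : n + 1 ≤ 1 + 1 := WithBot.coe_le_coe.mp h0
    have h2 : n ≤ 1 := (ENat.add_le_add_iff_right ENat.one_ne_top).mp h'
    rw [← WithBot.coe_one]
    exact WithBot.coe_le_coe.mpr h2

theorem dim_quot (V : Type) [CommRing V] [IsDomain V] [IsPrincipalIdealRing V]
    (u : V[X]) (hu : u.Monic) : ringKrullDim (V[X] ⧸ Ideal.span {u}) ≤ 1 := by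
  have h1 : ringKrullDim (V[X] ⧸ Ideal.span {u}) + 1 ≤ ringKrullDim V[X] :=
    ringKrullDim_quotient_succ_le_of_nonZeroDivisor
      (mem_nonZeroDivisors_of_ne_zero hu.ne_zero)
  have h2 : ringKrullDim V[X] ≤ 1 + 1 := by
    rw [Polynomial.ringKrullDim_of_isNoetherianRing]
    exact add_le_add_left (dim_pid V) 1
  exact wb_aux _ (h1.trans h2)

theorem dim_loc (R : Type) [CommRing R] (h : ringKrullDim R ≤ 1) (p : Ideal R) [p.IsPrime] :
    ringKrullDim (Localization.AtPrime p) ≤ 1 := by
  rw [IsLocalization.AtPrime.ringKrullDim_eq_height p (Localization.AtPrime p)]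
  exact (Ideal.height_le_ringKrullDim_of_ne_top Ideal.IsPrime.ne_top').trans h

/-- The irreducible factor. -/
theorem exists_factor (V : Type) [CommRing V] [IsDomain V] [IsPrincipalIdealRing V]
    (u : V[X]) (hu : u.Monic) (m : Ideal V[X]) [hm : m.IsPrime] (hum : u ∈ m) :
    ∃ u₁ w : V[X], u = u₁ * w ∧ u₁.Monic ∧ Prime u₁ ∧ u₁ ∈ m := by
  obtain ⟨f, hf, hfu⟩ := UniqueFactorizationMonoid.exists_prime_factors u hu.ne_zero
  have h1 : f.prod ∈ m := by
    obtain ⟨c, hc⟩ := hfu.symm
    rw [← hc]
    exact Ideal.mul_mem_right _ _ hum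
  obtain ⟨b, hb, hbm⟩ := (hm.multiset_prod_mem_iff_exists_mem f).mp h1
  have hbu : b ∣ u := (Multiset.dvd_prod hb).trans hfu.dvd
  obtain ⟨w', hw'⟩ := hbu
  have hlc : w'.leadingCoeff * b.leadingCoeff = 1 := by
    have := congrArg Polynomial.leadingCoeff hw'
    rw [Polynomial.leadingCoeff_mul, hu.leadingCoeff] at this
    rw [mul_comm]; exact this.symm
  have hCC : (C w'.leadingCoeff : V[X]) * C b.leadingCoeff = 1 := by
    rw [← C_mul, hlc, C_1]
  refine ⟨C w'.leadingCoeff * b, C b.leadingCoeff * w', ?_, ?_, ?_, ?_⟩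
  · calc u = b * w' := hw'
      _ = (C w'.leadingCoeff * C b.leadingCoeff) * (b * w') := by rw [hCC, one_mul]
      _ = C w'.leadingCoeff * b * (C b.leadingCoeff * w') := by ring
  · exact Polynomial.monic_C_mul_of_mul_leadingCoeff_eq_one hlc
  · have hunit : IsUnit (C w'.leadingCoeff : V[X]) := IsUnit.of_mul_eq_one _ hCC
    have hassoc : Associated b (C w'.leadingCoeff * b) :=
      (associated_unit_mul_left b _ hunit).symm
    exact hassoc.prime (hf b hb)
  · exact Ideal.mul_mem_left _ _ hbm

theorem main (hRD : ∀ (S : Type) [CommRing S] [IsRegularLocalRing S], ringKrullDim S ≤ 1 →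
    IsDomain S ∧ IsPrincipalIdealRing S) (V : Type) [CommRing V] [IsDomain V]
    [IsPrincipalIdealRing V] (u : V[X]) (hu : u.Monic)
    (hreg : IsRegularRing (V[X] ⧸ Ideal.span {u})) (m : Ideal V[X]) [hm : m.IsPrime]
    (hum : u ∈ m) :
    ∃ u₁ w : V[X], u = u₁ * w ∧ u₁.Monic ∧ IsDedekindDomain (V[X] ⧸ Ideal.span {u₁}) ∧
      w ∉ m := by
  obtain ⟨u₁, w, huw, hmon, hprime, hu1m⟩ := exists_factor V u hu m hum
  have hdim := dim_quot V u hu
  have hdom : IsDomain (V[X] ⧸ Ideal.span {u₁}) :=
    (Ideal.Quotient.isDomain_iff_prime _).mpr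
      ((Ideal.span_singleton_prime hprime.ne_zero).mpr hprime)
  refine ⟨u₁, w, huw, hmon, ?_, ?_⟩
  · have hdvr : IsDedekindDomainDvr (V[X] ⧸ Ideal.span {u₁}) := by
      have hN : IsNoetherian (V[X] ⧸ Ideal.span {u₁}) (V[X] ⧸ Ideal.span {u₁}) :=
        (inferInstance : IsNoetherianRing (V[X] ⧸ Ideal.span {u₁}))
      refine { toIsNoetherian := hN, is_dvr_at_nonzero_prime := ?_ }
      intro P hP0 hP
      have hle : Ideal.span {u} ≤ Ideal.span {u₁} := by
        rw [Ideal.span_singleton_le_span_singleton]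
        exact ⟨w, huw⟩
      let f : (V[X] ⧸ Ideal.span {u}) →+* (V[X] ⧸ Ideal.span {u₁}) :=
        Ideal.Quotient.factor hle
      have hfs : Function.Surjective f := Ideal.Quotient.factor_surjective hle
      have hPc : (P.comap f).IsPrime := Ideal.comap_isPrime f P
      have hS : IsRegularLocalRing (Localization.AtPrime (P.comap f)) :=
        hreg.isRegularLocalRing_localization (P.comap f)
      obtain ⟨_, hpir⟩ := hRD (Localization.AtPrime (P.comap f)) (dim_loc _ hdim _)
      have hsurj := RingHom.surjective_localRingHom_of_surjective f hfs P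
      have hpir' : IsPrincipalIdealRing (Localization.AtPrime P) :=
        IsPrincipalIdealRing.of_surjective _ hsurj
      have hdl : IsDomain (Localization.AtPrime P) :=
        IsLocalization.isDomain_localization P.primeCompl_le_nonZeroDivisors
      refine { not_a_field' := ?_ }
      intro h0
      apply hP0
      have h1 : P.map (algebraMap _ (Localization.AtPrime P)) = ⊥ := by
        rw [Localization.AtPrime.map_eq_maximalIdeal, h0]
      exact (Ideal.map_eq_bot_iff_of_injective
        (IsLocalization.injective (Localization.AtPrime P)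
          P.primeCompl_le_nonZeroDivisors)).mp h1
    exact IsDedekindDomainDvr.isDedekindDomain _
  · intro hwm
    have hle : Ideal.span {u} ≤ m := by
      rw [Ideal.span_singleton_le_iff_mem]; exact hum
    have hmp : (m.map (Ideal.Quotient.mk (Ideal.span {u}))).IsPrime :=
      Ideal.isPrime_map_quotientMk_of_isPrime hle
    have hS : IsRegularLocalRing
        (Localization.AtPrime (m.map (Ideal.Quotient.mk (Ideal.span {u})))) :=
      hreg.isRegularLocalRing_localization _
    obtain ⟨hd, -⟩ := hRD (Localization.AtPrime (m.map (Ideal.Quotient.mk (Ideal.span {u}))))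
      (dim_loc _ hdim _)
    have hmul : algebraMap (V[X] ⧸ Ideal.span {u})
        (Localization.AtPrime (m.map (Ideal.Quotient.mk (Ideal.span {u}))))
          (Ideal.Quotient.mk _ u₁) *
        algebraMap (V[X] ⧸ Ideal.span {u})
        (Localization.AtPrime (m.map (Ideal.Quotient.mk (Ideal.span {u}))))
          (Ideal.Quotient.mk _ w) = 0 := by
      rw [← map_mul, ← map_mul, ← huw, Ideal.Quotient.mk_singleton_self, map_zero]
    have hlift : ∀ a : V[X], algebraMap (V[X] ⧸ Ideal.span {u})
        (Localization.AtPrime (m.map (Ideal.Quotient.mk (Ideal.span {u}))))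
          (Ideal.Quotient.mk _ a) = 0 → ∃ s : V[X], s ∉ m ∧ u ∣ s * a := by
      intro a ha
      obtain ⟨⟨s', hs'⟩, hs⟩ := (IsLocalization.map_eq_zero_iff
        (m.map (Ideal.Quotient.mk (Ideal.span {u}))).primeCompl _ _).mp ha
      obtain ⟨s, rfl⟩ := Ideal.Quotient.mk_surjective s'
      refine ⟨s, ?_, ?_⟩
      · intro hsm
        exact hs' ((Ideal.mem_quotient_iff_mem hle).mpr hsm)
      · rw [← Ideal.mem_span_singleton, ← Ideal.Quotient.eq_zero_iff_mem, map_mul]
        exact hs
    rcases mul_eq_zero.mp hmul with h | h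
    · obtain ⟨s, hsm, c, hc⟩ := hlift _ h
      have h3 : s = w * c := by
        have : u₁ * s = u₁ * (w * c) := by
          calc u₁ * s = s * u₁ := mul_comm _ _
            _ = u * c := hc
            _ = u₁ * (w * c) := by rw [huw]; ring
        exact mul_left_cancel₀ hprime.ne_zero this
      exact hsm (h3 ▸ Ideal.mul_mem_right _ _ hwm)
    · obtain ⟨s, hsm, c, hc⟩ := hlift _ h
      have hw0 : w ≠ 0 := by
        intro h0
        apply hu.ne_zero
        rw [huw, h0, mul_zero]
      have h3 : s = u₁ * c := by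
        have : w * s = w * (u₁ * c) := by
          calc w * s = s * w := mul_comm _ _
            _ = u * c := hc
            _ = w * (u₁ * c) := by rw [huw]; ring
        exact mul_left_cancel₀ hw0 this
      exact hsm (h3 ▸ Ideal.mul_mem_right _ _ hu1m)

open Pool.Agent.W394.BQN in
theorem t_FAC (h : S_RD) : S_FAC := by
  intro V _ _ _ u hu hreg m _ hum
  exact main h V u hu hreg m hum

end Pool.Agent.W179.BQN
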